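import Pool.Agent.Q291.AD.Sharp

/-!
# The exploration path of critical bond percolation with adversarial defects

Critical bond percolation on the square lattice (`F` is the set of open edges) and an independent
random set `Q` of defects, which contains each edge with probability `τ`. A configuration `G` is
admissible if it agrees with `F` off the defects: the states of the defects are arbitrary, they may
be chosen by an adversary who knows everything.

* If `τ` is at most a small constant times `n ^ (-3/4)`, then for `k ≤ n` the probability that all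
  admissible configurations have four alternating arms from a given edge to distance `k`, and the
  probability that some admissible configuration does, are both of order `k ^ (-5/4)`.
* For the exploration path on `δ ℤ²` in a rectangle `(-A, B) × (0, H)`, from `a = t + i H` to
  `b = 0` between the wired boundary arc and the free one, the probability that some admissible
  configuration has a curve which is not within `ρ` of the curve of `F`, up to
  reparametrisation, is at most `C τ δ ^ (-3/4) ρ ^ (-31/24)`.
* If `τ` is at least a large constant times `δ ^ (3/4)`, then with probability bounded below some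
  admissible configuration has a curve at macroscopic distance from the curve of `F`.

In particular the whole family of curves of dynamical percolation, run for a time which is small
compared to `δ ^ (3/4)`, stays close to the initial curve, and so does the family of all curves of
the monotone coupling for the parameters `p` with `|p - 1/2|` small compared to `δ ^ (3/4)`.

Definitions: `Pool.Agent.H974R2.Basic` (`Ex`, `Pr`), `Pool.Agent.H974R2.Lattice` (edges, `RE`),
`Pool.Agent.H12R2.Sep.Defs` (`A4`), `Pool.Agent.H984R4.NP.Model` (`Rect`, `Rect.dm`,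
`Rect.curve`), `Pool.Agent.H984R4.NP.Defs` (`Dm`, `Dm.edges`, `Dm.walk`, `Dm.len`).
-/

namespace Pool.Agent.Results.MP_6c8efb_pr.AdversarialDefects

open H974 H12S H984N H984P

/-- The probability of an event which depends on a uniformly random set `F` of edges of `S` (the
open edges of critical percolation) and on an independent random set `Q` of edges of `S` (the
defects), which contains each edge of `S` with probability `τ`, independently. -/
noncomputable def prob (τ : ℝ) (S : Finset Edg) (A : Finset Edg → Finset Edg → Prop) : ℝ :=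
  Ex (fun _ => 1 / 2) S (fun F => Pr (fun _ => τ) S (A F))

/-- `G` is admissible: it agrees with `F` off the defects. -/
def Adm (F Q G : Finset Edg) : Prop := ∀ e, e ∉ Q → (e ∈ G ↔ e ∈ F)

/-- The edges of the box of radius `k` around the edge `e`. -/
noncomputable def box (e : Edg) (k : ℕ) : Finset Edg :=
  RE (e.1 - k) (e.1 + k) (e.2.1 - k) (e.2.1 + k)

/-- Four alternating arms from the edge `e` to the boundary of the box of radius `k` around it,
`F` being the set of open edges. -/
def Four (e : Edg) (k : ℕ) (F : Finset Edg) : Prop :=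
  A4 (e.1 - k) (e.1 + k) (e.2.1 - k) (e.2.1 + k) e ↑F

/-- The curves `f` and `g` are within `ρ` after an increasing reparametrisation. -/
def Close (f g : C(unitInterval, ℂ)) (ρ : ℝ) : Prop :=
  ∃ φ : unitInterval ≃o unitInterval, ∀ t, dist (f t) (g (φ t)) ≤ ρ

theorem result :
    -- four arms for all admissible configurations, and for some of them
    (∃ c C ε : ℝ, 0 < c ∧ 0 < C ∧ 0 < ε ∧ ∀ τ : ℝ, 0 ≤ τ → τ ≤ 1 → ∀ n : ℕ, 1 ≤ n →
      τ ≤ ε * (n:ℝ) ^ (-(3/4) : ℝ) → ∀ k : ℕ, 1 ≤ k → k ≤ n →
      ∀ (e : Edg) (S : Finset Edg), box e k ⊆ S →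
        c * (k:ℝ) ^ (-(5/4) : ℝ) ≤ prob τ S (fun F Q => ∀ G, Adm F Q G → Four e k G) ∧
        prob τ S (fun F Q => ∃ G, Adm F Q G ∧ Four e k G) ≤ C * (k:ℝ) ^ (-(5/4) : ℝ)) ∧
    -- the exploration path
    (∀ R : Rect, ∃ c C K δ0 : ℝ, 0 < c ∧ 0 < C ∧ 0 < K ∧ 0 < δ0 ∧ ∀ δ : ℝ, 0 < δ → δ ≤ δ0 →
      ∀ τ : ℝ, 0 ≤ τ → τ ≤ 1 →
      (∀ ρ : ℝ, 8 * δ ≤ ρ → ρ ≤ 1 → prob τ (R.dm δ).edges
        (fun F Q => ∃ G, Adm F Q G ∧ ¬ Close (R.curve δ G) (R.curve δ F) ρ) ≤
          C * (τ * δ ^ (-(3/4) : ℝ) * ρ ^ (-(31/24) : ℝ))) ∧
      (K * δ ^ (3/4 : ℝ) ≤ τ → c ≤ prob τ (R.dm δ).edges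
        (fun F Q => ∃ G, Adm F Q G ∧ ¬ Close (R.curve δ G) (R.curve δ F) c))) := by
  refine ⟨Q291.AD.both_def, fun R => ?_⟩
  obtain ⟨C, δ1, hC, hδ1, h1⟩ := Q291.AD.curve_def R
  obtain ⟨c, K, δ2, hc, hK, hδ2, h2⟩ := Q291.AD.sharp R
  refine ⟨c, C, K, min δ1 δ2, hc, hC, hK, lt_min hδ1 hδ2, fun δ hδ hδ' τ h0 hτ => ⟨?_, ?_⟩⟩
  · intro ρ hρ hρ1
    exact h1 δ hδ (hδ'.trans (min_le_left _ _)) ρ hρ hρ1 τ h0 hτ
  · intro hK'
    exact h2 δ hδ (hδ'.trans (min_le_right _ _)) τ hK' hτ

end Pool.Agent.Results.MP_6c8efb_pr.AdversarialDefects
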