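import Pool.Agent.Q292.CDepH.Pts

/-!
# The dependence between far clusters at the boundary of the half-plane

Critical bond percolation on `ℤ²`, restricted to the closed upper half-plane. The dependence
between the clusters of two boundary vertices, or between what is explored by following the open
edges from two half-boxes centred on the boundary, is measured by the total variation distance
between the joint law and the product of the two laws.

* For two boundary vertices the distance is *equal* to the probability that the clusters of the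
  first and of the second one in two *independent* configurations meet and are different, and it
  is of exact order `R ^ (-2/3) * log (R + 1)`, where `R` is the distance of the vertices: by a
  logarithm larger than the probability, of order `R ^ (-2/3)`, that they are connected.
* For two half-boxes of radii `r` and `s` at distance `R` it is of exact order
  `u ^ (1/3) * log (1 / u)`, where `u = (r + 1) * (s + 1) / R ^ 2`. The upper bound holds for the
  clusters with their open edges, the lower bound already for the sets of vertices.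

Definitions of the model (`sqLattice`, `bondLaw`, `openGraph`): `Pool.Agent.H974R2.Model`; `hlf` is
the parameter `1 / 2` (`Pool.Agent.H974R2.Infinite`).
-/

set_option autoImplicit false

namespace Pool.Agent.Results.MP_6c8efb_pr.BoundaryDependence

open H974 MeasureTheory

/-- The law of critical bond percolation on `ℤ²`. -/
noncomputable def law : Measure (sqLattice.edgeSet → Bool) := bondLaw hlf

/-- The distance of the supremum norm. -/
def dist (u v : ℤ × ℤ) : ℕ := max (u.1 - v.1).natAbs (u.2 - v.2).natAbs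

/-- The closed upper half-plane. -/
def upper : Set (ℤ × ℤ) := {v | 0 ≤ v.2}

/-- The graph of the open edges in the half-plane. -/
def halfGraph (ω : sqLattice.edgeSet → Bool) : SimpleGraph (ℤ × ℤ) where
  Adj u v := (openGraph ω).Adj u v ∧ u ∈ upper ∧ v ∈ upper
  symm := ⟨fun _ _ h => ⟨h.1.symm, h.2.2, h.2.1⟩⟩
  loopless := ⟨fun _ h => (openGraph ω).loopless.irrefl _ h.1⟩

/-- The half-box of radius `r` around the boundary vertex `(a, 0)`. -/
def halfBox (a : ℤ) (r : ℕ) : Set (ℤ × ℤ) := {u | 0 ≤ u.2 ∧ dist u (a, 0) ≤ r}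

/-- The union of the open clusters, in the half-plane, of the vertices of `A`. -/
def clusters (A : Set (ℤ × ℤ)) (ω : sqLattice.edgeSet → Bool) : Set (ℤ × ℤ) :=
  {v | ∃ u ∈ A, (halfGraph ω).Reachable u v}

/-- These clusters as a graph: their vertices and the open edges of the half-plane with an end in
them. -/
def graph (A : Set (ℤ × ℤ)) (ω : sqLattice.edgeSet → Bool) :
    Set (ℤ × ℤ) × Set sqLattice.edgeSet :=
  (clusters A ω, {e | ω e = true ∧ (∀ v ∈ (e : Sym2 (ℤ × ℤ)), v ∈ upper) ∧
    ∃ v ∈ clusters A ω, v ∈ (e : Sym2 (ℤ × ℤ))})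

/-- The probability, for two independent configurations `p.1` and `p.2`, that the cluster of
`(a, 0)` in the first one and the cluster of `(b, 0)` in the second one meet and are different. -/
noncomputable def meet (a b : ℤ) : ℝ :=
  (law.prod law).real {p | (clusters {(a, 0)} p.1 ∩ clusters {(b, 0)} p.2).Nonempty ∧
    clusters {(a, 0)} p.1 ≠ clusters {(b, 0)} p.2}

theorem result :
    (∀ a b : ℤ, IsGreatest {t : ℝ | ∃ B : Set (Set (ℤ × ℤ) × Set (ℤ × ℤ)),
      t = |law.real {ω | (clusters {(a, 0)} ω, clusters {(b, 0)} ω) ∈ B} -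
        (law.prod law).real {p | (clusters {(a, 0)} p.1, clusters {(b, 0)} p.2) ∈ B}|}
          (meet a b)) ∧
    (∃ c C : ℝ, 0 < c ∧ 0 < C ∧ ∀ a b : ℤ, a ≠ b →
      c * (|a - b| : ℝ) ^ (-(2 / 3 : ℝ)) * Real.log ((|a - b| : ℝ) + 1) ≤ meet a b ∧
      meet a b ≤ C * (|a - b| : ℝ) ^ (-(2 / 3 : ℝ)) * Real.log ((|a - b| : ℝ) + 1)) ∧
    (∃ c C : ℝ, 0 < c ∧ 0 < C ∧ ∀ (a b : ℤ) (r s : ℕ),
      20 * ((r : ℤ) + 1) ≤ |a - b| → 20 * ((s : ℤ) + 1) ≤ |a - b| →
      ∀ u : ℝ, u = ((r : ℝ) + 1) * ((s : ℝ) + 1) / (a - b : ℝ) ^ 2 →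
      (∀ B : Set ((Set (ℤ × ℤ) × Set sqLattice.edgeSet) ×
          (Set (ℤ × ℤ) × Set sqLattice.edgeSet)),
        |law.real {ω | (graph (halfBox a r) ω, graph (halfBox b s) ω) ∈ B} -
          (law.prod law).real {p | (graph (halfBox a r) p.1, graph (halfBox b s) p.2) ∈ B}| ≤
            C * u ^ (1 / 3 : ℝ) * Real.log (1 / u)) ∧
      ∃ B : Set (Set (ℤ × ℤ) × Set (ℤ × ℤ)),
        MeasurableSet {ω | (clusters (halfBox a r) ω, clusters (halfBox b s) ω) ∈ B} ∧
        MeasurableSet {p : (sqLattice.edgeSet → Bool) × (sqLattice.edgeSet → Bool) |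
          (clusters (halfBox a r) p.1, clusters (halfBox b s) p.2) ∈ B} ∧
        c * u ^ (1 / 3 : ℝ) * Real.log (1 / u) ≤
          |law.real {ω | (clusters (halfBox a r) ω, clusters (halfBox b s) ω) ∈ B} -
            (law.prod law).real
              {p | (clusters (halfBox a r) p.1, clusters (halfBox b s) p.2) ∈ B}|) := by
  have hmeet : ∀ a b : ℤ, meet a b =
      (Q292.CDep.μ.prod Q292.CDep.μ).real (Q292.CDepH.ED (Q292.CDepH.bp a) (Q292.CDepH.bp b)) := by
    intro a b
    unfold meet Q292.CDepH.ED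
    congr 1
    ext p
    show ((Q292.CDepH.clu {(a, 0)} p.1 ∩ Q292.CDepH.clu {(b, 0)} p.2).Nonempty ∧
      Q292.CDepH.clu {(a, 0)} p.1 ≠ Q292.CDepH.clu {(b, 0)} p.2) ↔
      (¬ Disjoint (Q292.CDepH.clu {(a, 0)} p.1) (Q292.CDepH.clu {(b, 0)} p.2) ∧
      Q292.CDepH.clu {(a, 0)} p.1 ≠ Q292.CDepH.clu {(b, 0)} p.2)
    rw [Set.not_disjoint_iff_nonempty_inter]
  have hcast : ∀ a b : ℤ, (|a - b| : ℝ) = ((a - b).natAbs : ℝ) := by
    intro a b
    rw [Nat.cast_natAbs]
    push_cast
    rfl
  refine ⟨?_, ?_, ?_⟩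
  · intro a b
    constructor
    · refine ⟨{q | ¬ Disjoint q.1 q.2 ∧ q.1 ≠ q.2}, ?_⟩
      rw [hmeet]
      exact (Q292.CDepH.exact_eq (a, 0) (b, 0)).symm
    · rintro t ⟨B, rfl⟩
      rw [hmeet]
      exact Q292.CDepH.exact_le (Q292.CDepH.single_finite a) (Q292.CDepH.single_finite b) B
  · obtain ⟨c, C, hc, hC, h⟩ := Q292.CDepH.two_vertices
    refine ⟨c, C, hc, hC, fun a b hab => ?_⟩
    rw [hmeet, hcast]
    exact h a b hab
  · obtain ⟨c, C, hc, hC, h⟩ := Q292.CDepH.main
    refine ⟨c, C, hc, hC, ?_⟩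
    rintro a b r s hr hs u rfl
    rw [Int.abs_eq_natAbs] at hr hs
    have e0 : (a - b : ℝ) ^ 2 = ((a - b).natAbs : ℝ) ^ 2 := by
      rw [← hcast, sq_abs]
    have e : Real.log (1 / (((r : ℝ) + 1) * ((s : ℝ) + 1) / (a - b : ℝ) ^ 2)) =
        Real.log (((a - b).natAbs : ℝ) ^ 2 / (((r : ℝ) + 1) * ((s : ℝ) + 1))) := by
      rw [one_div_div, e0]
    rw [e, e0]
    exact h a b r s (a - b).natAbs (Q292.CDepH.nv_bp a b) (by omega) (by omega)

end Pool.Agent.Results.MP_6c8efb_pr.BoundaryDependence
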