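import Pool.Agent.Q289.EC.Fun
import Pool.Agent.Results.MP_6c8efb_pr.IteratedLogarithm

/-!
# Zero-one law and exact laws of the iterated logarithm for the half-plane exploration path

Critical bond percolation on `ℤ × ℕ`, the edges `[x, x + 1]` of the real axis open for `x < 0` and
closed for `x ≥ 0`. The exploration path `path ω` starts next to the origin and keeps the open
cluster `C_-` of the negative half-axis on its left; `gam ω n` is its point after `n` steps and
`reach n ω` is its greatest distance from the origin in the first `n` steps.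

1. Zero-one law: an event of the path which does not depend on its beginning and does not change
   under shifts of time has probability 0 or 1. (Changing the configuration in a finite box
   changes the path only by a shift of time from some time on, almost surely.)
2. The two laws of the iterated logarithm hold with exact deterministic constants: almost surely
   `limsup |γ_n| / (n ^ (4/7) (log log n) ^ (3/7)) = limsup reach n / (the same) = L₁` and
   `liminf reach n / (n ^ (4/7) (log log n) ^ (-1/14)) = L₂`, where `0 < L₁, L₂ < ∞`.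

Definitions: `Pool.Agent.H984R4.HN.HPDefs` (`Conf`, `perc`, `opn`, `step`, `path`, `place`, `gam`,
`reach`).
-/

set_option autoImplicit false

namespace Pool.Agent.Results.MP_6c8efb_pr.ExactConstants

open H984H H984P MeasureTheory Filter Topology Pool.Agent.Q289.EC

theorem result :
    (∀ E : Set (ℕ → St),
      (∀ σ σ' : ℕ → St, (∃ k k' : ℕ, ∀ n, σ (k + n) = σ' (k' + n)) → σ ∈ E → σ' ∈ E) →
      MeasurableSet {ω | path ω ∈ E} →
      perc {ω | path ω ∈ E} = 0 ∨ perc {ω | path ω ∈ E} = 1) ∧
    ∃ L₁ L₂ : ℝ, 0 < L₁ ∧ 0 < L₂ ∧ ∀ᵐ ω ∂perc,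
      (∀ K, L₁ < K → ∀ᶠ n : ℕ in atTop,
        reach n ω ≤ K * ((n : ℝ) ^ (4/7 : ℝ) * Real.log (Real.log n) ^ (3/7 : ℝ))) ∧
      (∀ K, K < L₁ → ∃ᶠ n : ℕ in atTop,
        K * ((n : ℝ) ^ (4/7 : ℝ) * Real.log (Real.log n) ^ (3/7 : ℝ)) < ‖gam ω n‖) ∧
      (∀ K, K < L₂ → ∀ᶠ n : ℕ in atTop,
        K * ((n : ℝ) ^ (4/7 : ℝ) / Real.log (Real.log n) ^ (1/14 : ℝ)) < reach n ω) ∧
      (∀ K, L₂ < K → ∃ᶠ n : ℕ in atTop,
        reach n ω ≤ K * ((n : ℝ) ^ (4/7 : ℝ) / Real.log (Real.log n) ^ (1/14 : ℝ))) := by
  refine ⟨fun E hE hm => zero_one_path hE hm, ?_⟩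
  obtain ⟨c, C, hc, hC, hae⟩ := Pool.Agent.Results.MP_6c8efb_pr.IteratedLogarithm.result
  have hgr : ∀ ω n, ‖gam ω n‖ ≤ reach n ω := fun ω n => le_rch (path ω) le_rfl
  obtain ⟨L₁, hL1, -, h1⟩ := exists_const (Q := Q1 w1) (c := c) (C := C)
    (fun K K' h => Q1_mono w1 h) (Q1_inv w1_reg)
    (fun K => ev_meas dO_meas w1_reg K)
    (fun K hK => by
      filter_upwards [hae] with ω hω
      refine ⟨C, hK, ?_⟩
      filter_upwards [hω.1] with n hn
      refine (hgr ω n).trans (hn.trans_eq ?_)
      unfold w1
      ring)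
    (fun K hK => by
      filter_upwards [hae] with ω hω
      rintro ⟨K', hK', hev⟩
      obtain ⟨n, hn, h2, h3⟩ := (hω.2.1.and_eventually (hev.and w1_reg.pos)).exists
      have h4 : c * w1 n ≤ K' * w1 n := by
        refine le_trans ?_ (hn.trans h2)
        unfold w1
        exact le_of_eq (by ring)
      have := le_of_mul_le_mul_right h4 h3
      linarith)
  obtain ⟨L₂, hL2, -, h2⟩ := exists_const (Q := Q2 w2) (c := c) (C := C)
    (fun K K' h => Q2_mono w2 h) (Q2_inv w2_reg)
    (fun K => fr_meas rch_meas w2_reg K)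
    (fun K hK => by
      filter_upwards [hae] with ω hω
      refine ⟨C, hK, ?_⟩
      refine hω.2.2.2.mono fun n hn => hn.trans_eq ?_
      unfold w2
      ring)
    (fun K hK => by
      filter_upwards [hae] with ω hω
      rintro ⟨K', hK', hfr⟩
      obtain ⟨n, h2, hn, h3⟩ := (hfr.and_eventually (hω.2.2.1.and w2_reg.pos)).exists
      have h4 : c * w2 n ≤ K' * w2 n := by
        refine le_trans ?_ (hn.trans h2)
        unfold w2
        exact le_of_eq (by ring)
      have := le_of_mul_le_mul_right h4 h3
      linarith)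
  refine ⟨L₁, L₂, lt_of_lt_of_le hc hL1, lt_of_lt_of_le hc hL2, ?_⟩
  filter_upwards [h1, h2] with ω g1 g2
  refine ⟨fun K hK => ?_, fun K hK => ?_, fun K hK => ?_, fun K hK => ?_⟩
  · -- from the distance to the greatest distance
    obtain ⟨K', hK', hev⟩ := g1.1 ((L₁ + K) / 2) (by linarith)
    have hmono : ∀ m n : ℕ, 3 ≤ m → m ≤ n → w1 m ≤ w1 n := by
      intro m n hm hmn
      have h3 : (3:ℝ) ≤ m := by exact_mod_cast hm
      have h4 : (m:ℝ) ≤ n := by exact_mod_cast hmn
      have h5 : (1:ℝ) < Real.log 3 := by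
        rw [Real.lt_log_iff_exp_lt (by norm_num)]
        exact Real.exp_one_lt_d9.trans (by norm_num)
      have h6 : Real.log 3 ≤ Real.log m := Real.log_le_log (by norm_num) h3
      have h7 : Real.log m ≤ Real.log n := Real.log_le_log (by linarith) h4
      have h8 : 0 ≤ Real.log (Real.log m) := Real.log_nonneg (by linarith)
      have h9 : Real.log (Real.log m) ≤ Real.log (Real.log n) := Real.log_le_log (by linarith) h7
      unfold w1
      gcongr
    obtain ⟨N, hN⟩ := eventually_atTop.1 hev
    obtain ⟨M, hM⟩ : ∃ M : ℕ, M = max N 3 := ⟨_, rfl⟩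
    have hx : ∀ᶠ n : ℕ in atTop, rch (path ω) M ≤ K * w1 n := by
      have : Tendsto (fun n => K * w1 n) atTop atTop :=
        w1_reg.top.const_mul_atTop (by linarith)
      exact this.eventually_ge_atTop _
    filter_upwards [hx, eventually_ge_atTop M, w1_reg.pos] with n hn hnM hp
    show rch (path ω) n ≤ K * w1 n
    rw [rch_le]
    intro j hj
    rcases le_total j M with h | h
    · exact (le_rch (path ω) h).trans hn
    · have h3 : dO (path ω) j ≤ K' * w1 j := hN j (by omega)
      have h4 : w1 j ≤ w1 n := hmono j n (by omega) hj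
      have h5 : 0 ≤ w1 j := by
        unfold w1
        have h6 : (3:ℝ) ≤ j := by exact_mod_cast (by omega : 3 ≤ j)
        have h7 : (1:ℝ) ≤ Real.log j := by
          rw [Real.le_log_iff_exp_le (by linarith)]
          exact (Real.exp_one_lt_d9.trans (by norm_num)).le.trans h6
        have h8 := Real.log_nonneg h7
        positivity
      have h6 : K' * w1 j ≤ K * w1 j := mul_le_mul_of_nonneg_right (by linarith) h5
      have h7 : K * w1 j ≤ K * w1 n := mul_le_mul_of_nonneg_left h4 (by linarith)
      exact h3.trans (h6.trans h7)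
  · have h3 := g1.2 ((K + L₁) / 2) (by linarith)
    by_contra hcon
    apply h3
    rw [not_frequently] at hcon
    refine ⟨K, by linarith, ?_⟩
    filter_upwards [hcon] with n hn
    exact not_lt.1 hn
  · have h3 := g2.2 ((K + L₂) / 2) (by linarith)
    by_contra hcon
    apply h3
    rw [not_eventually] at hcon
    refine ⟨K, by linarith, ?_⟩
    exact hcon.mono fun n hn => not_lt.1 hn
  · obtain ⟨K', hK', hfr⟩ := g2.1 K hK
    refine (hfr.and_eventually w2_reg.pos).mono fun n hn => ?_
    refine hn.1.trans ?_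
    exact mul_le_mul_of_nonneg_right hK'.le hn.2.le

end Pool.Agent.Results.MP_6c8efb_pr.ExactConstants
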