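import Pool.Agent.Q292.TVX.Low2

/-!
# The exploration path near the critical point: the threshold for the total variation distance

Bond percolation in the half-plane `ℤ × ℕ` with the edges `[x, x + 1]` of the real axis open for
`x < 0` and closed for `x ≥ 0`, and the exploration path of the open cluster of the negative
half-axis, as in the problem (`path ω` is the sequence of its states, `gam ω k` its point after
`k` steps). `law p` is the law of independent edges, the edge `e` being open with probability
`p e`; the critical law is `perc`. The path is stopped at its exit from the ball of radius `R`.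

* If all the probabilities `p e` are within `δ` of `1 / 2`, the total variation distance between
  the laws of the stopped path for `p` and for `1 / 2` is at most `C δ R ^ (7/8)`, and also at most
  `√(1 - exp (-C δ² R ^ (7/4)))` for `δ ≤ 1/4`.
* For homogeneous percolation with parameter `q` it is at least
  `c min (1, |q - 1/2| R ^ (7/8))`.
* It tends to `1` (the two laws are asymptotically singular) when `|q - 1/2| R ^ (7/8) → ∞`.

So the stopped path feels the perturbation of the parameter in the sense of total variation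
exactly beyond the threshold `|q - 1/2| = R ^ (-7/8)`, long before the near-critical window of
the crossing probabilities. Definitions of the model: `Pool.Agent.H984R4.HN.HPDefs`.
-/

set_option autoImplicit false

namespace Pool.Agent.Results.MP_6c8efb_pr.VariationThreshold

open H984H H974 H984P MeasureTheory ProbabilityTheory

/-- Independent edges; `p e` is the probability that `e` is open. -/
noncomputable def law (p : Edg → unitInterval) : Measure Conf :=
  Measure.infinitePi (fun e : Edg => bernoulliMeasure true false (p e))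

/-- The first time at which the path is at distance at least `R` from the origin. -/
noncomputable def exit (R : ℝ) (ω : Conf) : ℕ := sInf {k | R ≤ ‖gam ω k‖}

/-- The path stopped at this time. -/
noncomputable def stop (R : ℝ) (ω : Conf) (k : ℕ) : St := path ω (min k (exit R ω))

/-- The difference of the probabilities that the path, stopped at the exit from the ball of radius
`R`, is in `B`, for the law with the parameters `p` and for the critical law. -/
noncomputable def gap (p : Edg → unitInterval) (R : ℝ) (B : Set (ℕ → St)) : ℝ :=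
  |(law p).real {ω | stop R ω ∈ B} - perc.real {ω | stop R ω ∈ B}|

theorem result :
    ((∀ p : Edg → unitInterval, (∀ e, (p e : ℝ) = 1/2) → law p = perc) ∧
      ∀ (R : ℝ) (ω : Conf), R ≤ ‖gam ω (exit R ω)‖ ∧ ∀ k < exit R ω, ‖gam ω k‖ < R) ∧
    (∃ C : ℝ, 0 < C ∧ ∀ (R δ : ℝ) (p : Edg → unitInterval), 1 ≤ R →
      (∀ e, |(p e : ℝ) - 1/2| ≤ δ) → ∀ B : Set (ℕ → St),
        gap p R B ≤ C * (δ * R ^ (7/8 : ℝ)) ∧
        (δ ≤ 1/4 → gap p R B ≤ Real.sqrt (1 - Real.exp (-(C * (δ ^ 2 * R ^ (7/4 : ℝ))))))) ∧
    (∃ c : ℝ, 0 < c ∧ ∀ (R : ℝ) (q : unitInterval), 1 ≤ R → ∃ B : Set (ℕ → St),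
      c * min 1 (|(q : ℝ) - 1/2| * R ^ (7/8 : ℝ)) ≤ gap (fun _ => q) R B) ∧
    (∀ ε : ℝ, 0 < ε → ∃ M : ℝ, 0 < M ∧ ∀ (R : ℝ) (q : unitInterval), 1 ≤ R →
      M ≤ |(q : ℝ) - 1/2| * R ^ (7/8 : ℝ) → ∃ B : Set (ℕ → St),
        (law (fun _ => q)).real {ω | stop R ω ∈ B} ≤ ε ∧
        1 - ε ≤ perc.real {ω | stop R ω ∈ B}) := by
  refine ⟨⟨fun p hp => ?_, fun R ω => ⟨Q292.TVX.exit_spec R ω, fun k hk =>
    Q292.TVX.lt_of_lt_exit hk⟩⟩, ?_, ?_, fun ε hε => ?_⟩
  · rw [← Q292.TVX.law_half]
    have : p = fun _ => Q292.TVX.half := by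
      funext e
      exact Subtype.ext (hp e)
    rw [this]
    rfl
  · obtain ⟨C, hC, h⟩ := Q292.TVX.upper
    refine ⟨C + Real.sqrt C + 4, by positivity, fun R δ p hR hp B => ?_⟩
    have hR0 : 0 < R := by linarith
    have hδ : 0 ≤ δ := (abs_nonneg _).trans (hp (0, 0, false))
    have hr2 : (R ^ (7/8 : ℝ)) ^ 2 = R ^ (7/4 : ℝ) := by
      rw [← Real.rpow_natCast, ← Real.rpow_mul hR0.le]
      norm_num
    have hr1 : 1 ≤ R ^ (7/8 : ℝ) := Real.one_le_rpow hR (by norm_num)
    have hsC : 0 ≤ Real.sqrt C := Real.sqrt_nonneg _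
    have hx : 0 ≤ δ * R ^ (7/8 : ℝ) := by positivity
    have hup : δ ≤ 1/4 → gap p R B ≤
        Real.sqrt (1 - Real.exp (-(C * (δ ^ 2 * R ^ (7/4 : ℝ))))) := by
      intro h4
      have := h R hR δ h4 p hp B
      rw [mul_assoc] at this
      exact this
    constructor
    · by_cases h4 : δ ≤ 1/4
      · refine (hup h4).trans ?_
        have h1 : Real.sqrt (1 - Real.exp (-(C * (δ ^ 2 * R ^ (7/4 : ℝ))))) ≤
            Real.sqrt (C * (δ * R ^ (7/8 : ℝ)) ^ 2) := by
          apply Real.sqrt_le_sqrt
          have := Real.add_one_le_exp (-(C * (δ ^ 2 * R ^ (7/4 : ℝ))))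
          rw [mul_pow, hr2]
          linarith
        rw [Real.sqrt_mul hC.le, Real.sqrt_sq hx] at h1
        refine h1.trans ?_
        refine mul_le_mul_of_nonneg_right ?_ hx
        linarith
      · rw [not_le] at h4
        have h1 : gap p R B ≤ 1 := by
          have hP : IsProbabilityMeasure (law p) := by
            unfold law
            infer_instance
          have a1 : 0 ≤ (law p).real {ω | stop R ω ∈ B} := measureReal_nonneg
          have a2 : (law p).real {ω | stop R ω ∈ B} ≤ 1 := measureReal_le_one
          have a3 : 0 ≤ perc.real {ω | stop R ω ∈ B} := measureReal_nonneg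
          have a4 : perc.real {ω | stop R ω ∈ B} ≤ 1 := measureReal_le_one
          unfold gap
          rw [abs_le]
          constructor <;> linarith
        have h2 : 1 ≤ 4 * (δ * R ^ (7/8 : ℝ)) := by nlinarith
        refine (h1.trans h2).trans ?_
        refine mul_le_mul_of_nonneg_right ?_ hx
        linarith
    · intro h4
      refine (hup h4).trans (Real.sqrt_le_sqrt ?_)
      have h1 : C * (δ ^ 2 * R ^ (7/4 : ℝ)) ≤ (C + Real.sqrt C + 4) * (δ ^ 2 * R ^ (7/4 : ℝ)) :=
        mul_le_mul_of_nonneg_right (by linarith) (by positivity)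
      have h2 : Real.exp (-((C + Real.sqrt C + 4) * (δ ^ 2 * R ^ (7/4 : ℝ)))) ≤
          Real.exp (-(C * (δ ^ 2 * R ^ (7/4 : ℝ)))) := Real.exp_le_exp.mpr (by linarith)
      linarith
  · obtain ⟨c, hc, h⟩ := Q292.TVX.lower
    exact ⟨c, hc, fun R q hR => h R hR q⟩
  · obtain ⟨M, hM, h⟩ := Q292.TVX.sep hε
    exact ⟨M, hM, fun R q hR hq => h R hR q hq⟩

end Pool.Agent.Results.MP_6c8efb_pr.VariationThreshold
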